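import Pool.Agent.MP_0e6a9f_ag.H19.Spec

/-! The external product of two resolutions of the diagonal is a resolution of the diagonal. -/

open MulOpposite

noncomputable section
namespace FMD
open _root_.FMD.DGR _root_.FMD.Bimod

namespace K1

variable {K : Type} [Field K] {A A' : DGR} [Algebra K A.B] [A.KL K] [Algebra K A'.B] [A'.KL K]
  {q : Tw (env K A A)} {q' : Tw (env K A' A')}

lemma box_add (u : (Fr q).H) (v v' : (Fr q').H) : box u (v + v') = box u v + box u v' :=
  Fr.ext fun i => by
    rw [map_add, Pi.add_apply, val_box, val_box, val_box, map_add, Pi.add_apply, tm_add, map_add]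

lemma add_box (u u' : (Fr q).H) (v : (Fr q').H) : box (u + u') v = box u v + box u' v :=
  Fr.ext fun i => by
    rw [map_add, Pi.add_apply, val_box, val_box, val_box, map_add, Pi.add_apply, add_tm, map_add]

lemma box_smul (c : K) (u : (Fr q).H) (v : (Fr q').H) : box u (c • v) = c • box u v :=
  Fr.ext fun i => by
    rw [map_smul, Pi.smul_apply, val_box, val_box, map_smul, Pi.smul_apply, tm_smul, map_smul]

lemma smul_box (c : K) (u : (Fr q).H) (v : (Fr q').H) : box (c • u) v = c • box u v :=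
  Fr.ext fun i => by
    rw [map_smul, Pi.smul_apply, val_box, val_box, map_smul, Pi.smul_apply, smul_tm, map_smul]

variable (q q') in
/-- The external product as a bilinear map. -/
def boxL : (Fr q).H →ₗ[K] (Fr q').H →ₗ[K] (Fr (boxT q q')).H :=
  LinearMap.mk₂ K box add_box smul_box box_add box_smul

@[simp] lemma boxL_apply (u : (Fr q).H) (v : (Fr q').H) : boxL q q' u v = box u v := rfl

@[simp] lemma zero_box (v : (Fr q').H) : box (0 : (Fr q).H) v = 0 := by
  rw [← boxL_apply, map_zero, LinearMap.zero_apply]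

@[simp] lemma box_zero (u : (Fr q).H) : box u (0 : (Fr q').H) = 0 := by
  rw [← boxL_apply, map_zero]

lemma sum_box {ι : Type*} (s : Finset ι) (u : ι → (Fr q).H) (v : (Fr q').H) :
    box (∑ i ∈ s, u i) v = ∑ i ∈ s, box (u i) v := by
  rw [← boxL_apply, map_sum, LinearMap.sum_apply]; rfl

lemma box_sum {ι : Type*} (s : Finset ι) (u : (Fr q).H) (v : ι → (Fr q').H) :
    box u (∑ i ∈ s, v i) = ∑ i ∈ s, box u (v i) := by
  rw [← boxL_apply, map_sum]; rfl

lemma box_mem {i j n : ℤ} {u : (Fr q).H} {v : (Fr q').H} (hu : u ∈ (Fr q).gr i)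
    (hv : v ∈ (Fr q').gr j) (h : i + j = n) : box u v ∈ (Fr (boxT q q')).gr n :=
  Fr.mem_gr.2 fun k => by
    rw [val_box]
    exact (shufF K A A').mem (tm_mem (hu k.1) (hv k.2) (by dsimp only; omega))

lemma act_box (x : (env K A A).B) (y : (env K A' A').B) (u : (Fr q).H) (v : (Fr q').H) :
    (Fr (boxT q q')).act K (shuf K A A' (tm K _ _ x y)) (box u v) =
      box ((Fr q).act K x u) ((Fr q').act K y v) :=
  Fr.ext fun i => by
    rw [Fr.val_act, val_box, val_box, ← map_mul, tm_mul, Fr.val_act, Fr.val_act]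

lemma gen_box (i : q.I) (j : q'.I) :
    Fr.gen (boxT q q') (i, j) = box (Fr.gen q i) (Fr.gen q' j) :=
  Fr.ext fun k => by
    obtain ⟨k, l⟩ := k
    rw [val_box, Fr.val_gen, Fr.val_gen, Fr.val_gen]
    by_cases h : k = i
    · by_cases h' : l = j
      · subst h h'
        rw [if_pos rfl, if_pos rfl, if_pos rfl]
        exact ((shufF K A A').map_e (q.ob k, q'.ob l)).symm
      · rw [if_neg fun e => h' (Prod.ext_iff.1 e).2, if_neg h', tm_zero, map_zero]
    · rw [if_neg fun e => h (Prod.ext_iff.1 e).1, if_neg h, zero_tm, map_zero]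

lemma boxT_δ (i j : q.I × q'.I) : (boxT q q').δ i j = shuf K A A'
    (tm K _ _ (q.δ i.1 j.1) (q'.idm i.2 j.2) + tm K _ _ (q.idm i.1 j.1) (q'.δ i.2 j.2)) := rfl

lemma sum_val_idm (u : (Fr q).H) (j : q.I) : ∑ i, Fr.val q u i * q.idm i j = Fr.val q u j := by
  rw [Finset.sum_eq_single j (fun i _ h => by rw [Tw.idm, Matrix.diagonal_apply_ne _ h, mul_zero])
    (by simp), Tw.idm, Matrix.diagonal_apply_eq, Fr.val_e]

lemma d_shuf (z) : (env K _ _).d (shuf K A A' z) = shuf K A A' ((tens K _ _).d z) :=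
  (shufF K A A').comm z

lemma d_box (u : (Fr q).H) (v : (Fr q').H) :
    (Fr (boxT q q')).d (box u v) = box ((Fr q).d u) v + box u ((Fr q').d v) :=
  Fr.ext fun j => by
    have e : ∑ i : q.I × q'.I, Fr.val _ (box u v) i * (boxT q q').δ i j = shuf K A A'
        (tm K _ _ (∑ i, Fr.val q u i * q.δ i j.1) (Fr.val q' v j.2) +
          tm K _ _ (Fr.val q u j.1) (∑ i, Fr.val q' v i * q'.δ i j.2)) := by
      have e1 : ∀ i : q.I × q'.I, Fr.val _ (box u v) i * (boxT q q').δ i j = shuf K A A'
          (tm K _ _ (Fr.val q u i.1 * q.δ i.1 j.1) (Fr.val q' v i.2 * q'.idm i.2 j.2) +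
            tm K _ _ (Fr.val q u i.1 * q.idm i.1 j.1) (Fr.val q' v i.2 * q'.δ i.2 j.2)) :=
        fun i => by rw [val_box, boxT_δ, ← map_mul, mul_add, tm_mul, tm_mul]
      rw [Finset.sum_congr rfl fun i _ => e1 i, ← map_sum, Finset.sum_add_distrib,
        Fintype.sum_prod_type, Fintype.sum_prod_type]
      simp only [← tm_sum, ← sum_tm, sum_val_idm]
    rw [Fr.val_d, map_add, Pi.add_apply, val_box, val_box, val_box, Fr.val_d, Fr.val_d, d_shuf, d_tm]
    refine (congrArg _ e).trans ?_
    rw [add_tm, tm_add, map_add, map_add, map_add, map_add]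
    abel

lemma act_tm_self (x : (env K A A).B) (y : (env K A' A').B) (a : A.B) (a' : A'.B) :
    (tens K A A').self.act K (shuf K A A' (tm K _ _ x y)) (tm K A A' a a') =
      tm K A A' (A.self.act K x a) (A'.self.act K y a') := by
  induction x using env_ind with
  | zero => simp
  | add x x' hx hx' => simp only [add_tm, map_add, LinearMap.add_apply, hx, hx']
  | em b c =>
    induction y using env_ind with
    | zero => simp
    | add y y' hy hy' => simp only [tm_add, map_add, LinearMap.add_apply, hy, hy']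
    | em b' c' => rw [shuf_em, act_self_em, act_self_em, act_self_em, tm_mul, tm_mul]

lemma lift_boxA (a : q.I → A.B) (a' : q'.I → A'.B) (u : (Fr q).H) (v : (Fr q').H) :
    lift (boxT q q') (tens K A A').self (boxA a a') (box u v) =
      tm K A A' (lift q A.self a u) (lift q' A'.self a' v) := by
  rw [lift_apply, lift_apply, lift_apply, sum_tm]
  refine (Fintype.sum_prod_type _).trans (Finset.sum_congr rfl fun i _ => ?_)
  rw [tm_sum]
  exact Finset.sum_congr rfl fun j _ => by rw [val_box]; exact act_tm_self _ _ _ _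

lemma lift_box {p : Tw (env K A A)} {p' : Tw (env K A' A')} (m : q.I → (Fr p).H)
    (m' : q'.I → (Fr p').H) (u : (Fr q).H) (v : (Fr q').H) :
    lift (boxT q q') (Fr (boxT p p')) (fun i => box (m i.1) (m' i.2)) (box u v) =
      box (lift q (Fr p) m u) (lift q' (Fr p') m' v) := by
  rw [lift_apply, lift_apply, lift_apply, sum_box]
  refine (Fintype.sum_prod_type _).trans (Finset.sum_congr rfl fun i _ => ?_)
  rw [box_sum]
  exact Finset.sum_congr rfl fun j _ => by rw [val_box]; exact act_box _ _ _ _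

lemma lift_boxK (κ : q.I → (Fr q).H) (κ' : q'.I → (Fr q').H) (u : (Fr q).H) (v : (Fr q').H) :
    lift (boxT q q') (Fr (boxT q q')) (boxK κ κ') (box u v) =
      box (lift q (Fr q) κ u) v + box u (lift q' (Fr q') κ' v) := by
  have := lift_add (y := boxT q q') (M := Fr (boxT q q')) (fun i => box (κ i.1) (Fr.gen q' i.2))
    (fun i => box (Fr.gen q i.1) (κ' i.2)) (box u v)
  rw [lift_box, lift_box, lift_gen_id, lift_gen_id] at this
  exact this

lemma boxA_mem {i j n : ℤ} {a : q.I → A.B} {a' : q'.I → A'.B} (ha : a ∈ bhGr q A.self i)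
    (ha' : a' ∈ bhGr q' A'.self j) (h : i + j = n) :
    boxA a a' ∈ bhGr (boxT q q') (tens K A A').self n :=
  fun k => tm_mem_cor (ha k.1) (ha' k.2) (by dsimp only; omega)

lemma bhD_boxA {i j : ℤ} {a : q.I → A.B} {a' : q'.I → A'.B} (ha : a ∈ bhGr q A.self i)
    (ha' : a' ∈ bhGr q' A'.self j) : bhD (boxT q q') (tens K A A').self (boxA a a') =
      boxA (bhD q A.self a) a' + boxA a (bhD q' A'.self a') := by
  have h1 := (BH q A.self).d_mem ha
  have h2 := (BH q' A'.self).d_mem ha'
  have h3 := (BH (boxT q q') (tens K A A').self).d_mem (boxA_mem ha ha' rfl)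
  funext k
  obtain ⟨k, l⟩ := k
  have e := d_lift (y := boxT q q') (M := (tens K A A').self) (boxA a a') (Fr.gen _ (k, l))
  rw [lift_gen h3, gen_box, d_box, map_add, lift_boxA, lift_boxA, lift_boxA] at e
  have e' := d_tm (K := K) (lift q A.self a (Fr.gen q k)) (lift q' A'.self a' (Fr.gen q' l))
  have e1 := d_lift (M := A.self) a (Fr.gen q k)
  have e2 := d_lift (M := A'.self) a' (Fr.gen q' l)
  rw [lift_gen h1] at e1
  rw [lift_gen h2] at e2
  rw [show A.d _ = _ from e1, show A'.d _ = _ from e2, add_tm, tm_add, add_add_add_comm] at e'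
  have := add_left_cancel (e.symm.trans e')
  rw [lift_gen ha, lift_gen ha'] at this
  exact this

/-- Elements of degree `n` are sums of products of homogeneous elements. -/
lemma box_gr_le {U : Type} [AddCommGroup U] (f : (Fr (boxT q q')).H →+ U) (S : AddSubgroup U)
    {n : ℤ} (h : ∀ i j u v, u ∈ (Fr q).gr i → v ∈ (Fr q').gr j → i + j = n → f (box u v) ∈ S)
    {w : (Fr (boxT q q')).H} (hw : w ∈ (Fr (boxT q q')).gr n) : f w ∈ S := by
  rw [← Fr.sum_gen w, map_sum]
  refine sum_mem fun k _ => ?_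
  obtain ⟨k, l⟩ := k
  let g : (env K (tens K A A') (tens K A A')).B →+ U := f.comp
    ((LinearMap.applyₗ (Fr.gen _ (k, l))).comp ((Fr (boxT q q')).act K).toLinearMap).toAddMonoidHom
  refine env_gr_le g S (fun i j a b ha hb e => ?_) (Fr.mem_gr.1 hw (k, l))
  refine tens_gr_le (g.comp (AddMonoidHom.mk' (em K _ _ · b) fun x y => add_em x y b)) S
    (fun i₁ i₂ a₁ a₂ ha₁ ha₂ e₁ => ?_) ha
  refine tens_gr_le (g.comp (AddMonoidHom.mk' (em K _ _ (tm K A A' a₁ a₂)) (em_add _))) S
    (fun j₁ j₂ b₁ b₂ hb₁ hb₂ e₂ => ?_) hb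
  change f ((Fr (boxT q q')).act K (em K _ _ (tm K A A' a₁ a₂) (tm K A A' b₁ b₂))
    (Fr.gen _ (k, l))) ∈ S
  rw [← shuf_em, gen_box, act_box]
  exact h _ _ _ _ ((Fr q).act_mem (em_mem ha₁ hb₁ rfl) (Fr.gen_mem k).1)
    ((Fr q').act_mem (em_mem ha₂ hb₂ rfl) (Fr.gen_mem l).1) (by dsimp only at e; omega)

variable (K A) in
/-- `em` as a bilinear map. -/
def emL : A.B →ₗ[K] A.B →ₗ[K] (env K A A).B :=
  LinearMap.mk₂ K (em K A A) add_em smul_em em_add em_smul

variable (K A A') in
/-- A linear left inverse of the shuffle map. -/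
def unshuf : (env K (tens K A A') (tens K A A')).B →ₗ[K] (tens K (env K A A) (env K A' A')).B :=
  elift (C := tens K A A') (C' := tens K A A') (TensorProduct.map₂ (emL K A) (emL K A'))

lemma unshuf_shuf (z) : unshuf K A A' (shuf K A A' z) = z := by
  induction z using tens_ind with
  | zero => simp
  | add x y hx hy => rw [map_add, map_add, hx, hy]
  | tmul x y =>
    induction x using env_ind with
    | zero => simp
    | add x x' hx hx' => rw [add_tm, map_add, map_add, hx, hx']
    | em a b =>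
      induction y using env_ind with
      | zero => simp
      | add y y' hy hy' => rw [tm_add, map_add, map_add, hy, hy']
      | em a' b' => rw [shuf_em]; rfl

variable (q) in
/-- `x ↦ x · gen i`. -/
def onGen (i : q.I) : (env K A A).B →ₗ[K] (Fr q).H :=
  (LinearMap.applyₗ (Fr.gen q i)).comp ((Fr q).act K).toLinearMap

/-- Linear maps out of the external product. -/
def blift {U : Type} [AddCommGroup U] [Module K U] (β : (Fr q).H →ₗ[K] (Fr q').H →ₗ[K] U) :
    (Fr (boxT q q')).H →ₗ[K] U :=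
  ∑ i : q.I × q'.I, tlift (β.compl₁₂ (onGen q i.1) (onGen q' i.2)) ∘ₗ unshuf K A A' ∘ₗ
    LinearMap.proj i ∘ₗ Fr.val (boxT q q')

lemma blift_box {U : Type} [AddCommGroup U] [Module K U] (β : (Fr q).H →ₗ[K] (Fr q').H →ₗ[K] U)
    (u : (Fr q).H) (v : (Fr q').H) : blift β (box u v) = β u v := by
  conv_rhs => rw [← Fr.sum_gen u, ← Fr.sum_gen v, map_sum β, LinearMap.sum_apply]
  rw [blift, LinearMap.sum_apply, Fintype.sum_prod_type]
  refine Finset.sum_congr rfl fun i _ => ?_
  rw [map_sum]
  refine Finset.sum_congr rfl fun j _ => ?_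
  change tlift _ (unshuf K A A' (Fr.val _ (box u v) (i, j))) = _
  rw [val_box, unshuf_shuf]
  rfl

lemma self_honest (h : Deg0 A) : A.self.Honest :=
  honest_of_proj (fun n => if n = 0 then AddMonoidHom.id _ else 0)
    (fun n v => by
      by_cases e : n = 0
      · rw [if_pos e, e]; exact h.mem v
      · rw [if_neg e]; exact zero_mem _)
    (fun m n v hv => by
      by_cases e : n = 0
      · subst e; split_ifs <;> rfl
      · rw [h.zero hv e, map_zero, ite_self])
    fun v => ⟨{0}, by simp⟩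

lemma fr_honest (h : Deg0 A) (q : Tw (env K A A)) : (Fr q).Honest := by
  have hE : Deg0 (env K A A) := h.tens h.op
  have hv : ∀ (n : ℤ) (v : (Fr q).H) i, Fr.val q (Fr.mk q fun i =>
      if q.deg i = n then Fr.val q v i else 0) i = if q.deg i = n then Fr.val q v i else 0 :=
    fun n v i => by rw [Fr.val_mk, ite_mul, zero_mul, Fr.val_e]
  refine honest_of_proj (fun n => AddMonoidHom.mk' (fun v => Fr.mk q fun i =>
    if q.deg i = n then Fr.val q v i else 0) fun u v => Fr.ext fun i => ?_)
    (fun n v => Fr.mem_gr.2 fun i => ?_) (fun m n v h0 => Fr.ext fun i => ?_)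
    fun v => ⟨Finset.univ.image q.deg, Fr.ext fun i => ?_⟩
  · rw [map_add (Fr.val q) (Fr.mk _ _), Pi.add_apply, hv, hv, hv, map_add, Pi.add_apply]
    split_ifs
    · rfl
    · exact (add_zero _).symm
  · rw [AddMonoidHom.mk'_apply, hv]
    split_ifs with e
    · rw [e, sub_self]; exact hE.mem _
    · exact zero_mem _
  · rw [AddMonoidHom.mk'_apply, hv]
    by_cases e : q.deg i = n
    · rw [e]
      by_cases e' : m = n
      · rw [if_pos e', if_pos e'.symm]
      · rw [if_neg e', if_neg (Ne.symm e'), map_zero, Pi.zero_apply]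
    · have : Fr.val q v i = 0 := hE.zero (Fr.mem_gr.1 h0 i) (by omega)
      rw [this, ite_self]
      split_ifs
      · exact this.symm
      · rw [map_zero, Pi.zero_apply]
  · rw [map_sum, Finset.sum_apply]
    simp only [AddMonoidHom.mk'_apply, hv, Finset.sum_ite_eq, Finset.mem_image, Finset.mem_univ,
      true_and, exists_apply_eq_apply, if_true]

/-- A resolution of a category in degree 0 contracts linearly onto it. -/
lemma res_contr (h : Deg0 A) (R : Res K A) :
    ∃ (ι : A.B →ₗ[K] (Fr R.q).H) (H : (Fr R.q).H →ₗ[K] (Fr R.q).H),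
      (∀ a, ι a ∈ (Fr R.q).gr 0) ∧ (∀ a, (Fr R.q).d (ι a) = 0) ∧ (∀ a, R.aug (ι a) = a) ∧
      (∀ n, ∀ u ∈ (Fr R.q).gr n, H u ∈ (Fr R.q).gr (n - 1)) ∧
      ∀ u, (Fr R.q).d (H u) + H ((Fr R.q).d u) = u + ι (R.aug u) := by
  obtain ⟨s, h1, h2⟩ := ((fr_honest h R.q).cone (self_honest h) R.aug_isHom).contr (K := K)
    ((Cx.qis_iff_cone R.aug_isHom.isMap).1 R.qis)
  have hd : ∀ z : (Fr R.q).H × A.B,
      (cone R.aug_isHom).d z = ((Fr R.q).d z.1, R.aug z.1) := fun z =>
    Prod.ext rfl (by change R.aug z.1 + A.d z.2 = _; rw [h.d, add_zero])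
  refine ⟨LinearMap.fst K _ _ ∘ₗ s ∘ₗ LinearMap.inr K _ _,
    LinearMap.fst K _ _ ∘ₗ s ∘ₗ LinearMap.inl K _ _, fun a => ?_, fun a => ?_, fun a => ?_,
    fun n u hu => ?_, fun u => ?_⟩
  · exact (Fr R.q).mem_cast (h1 0 (0, a) ⟨zero_mem _, h.mem a⟩).1 (by ring)
  · have := h2 (0, a)
    rw [hd, hd, map_zero, map_zero, Prod.mk_zero_zero, map_zero, add_zero] at this
    exact congrArg Prod.fst this
  · have := h2 (0, a)
    rw [hd, hd, map_zero, map_zero, Prod.mk_zero_zero, map_zero, add_zero] at this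
    exact congrArg Prod.snd this
  · exact (Fr R.q).mem_cast
      (h1 (n - 1) (u, 0) ⟨(Fr R.q).mem_cast hu (by ring), zero_mem _⟩).1 (by ring)
  · have := h2 (u, 0)
    have e : ((Fr R.q).d u, R.aug u) = ((Fr R.q).d u, 0) + (0, R.aug u) := by simp
    rw [hd, hd, e, map_add] at this
    have e' : (Fr R.q).d (s (u, 0)).1 + ((s ((Fr R.q).d u, 0)).1 + (s (0, R.aug u)).1) = u :=
      congrArg Prod.fst this
    change (Fr R.q).d (s (u, 0)).1 + (s ((Fr R.q).d u, 0)).1 = u + (s (0, R.aug u)).1
    rw [← (Fr R.q).cx.add_add_cancel' ((Fr R.q).d (s (u, 0)).1 + _) (s (0, R.aug u)).1,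
      add_assoc ((Fr R.q).d _), e']

end K1

open K1 in
theorem kun1 : Kun1Stmt := by
  intro K _ A A' _ _ _ _ h h' R R'
  have hm := boxA_mem R.a_mem R'.a_mem (add_zero 0)
  have hd : bhD (boxT R.q R'.q) (tens K A A').self (boxA R.a R'.a) = 0 := by
    rw [bhD_boxA R.a_mem R'.a_mem, R.a_d, R'.a_d]
    funext i
    simp [boxA]
  have hT : Deg0 (tens K A A') := h.tens h'
  refine ⟨hm, hd, (lift_isHom hm hd).isMap, fun n w hw _ => ?_, fun n z hz h0 hb => ?_⟩
  all_goals
    obtain ⟨ι, H, a1, a2, a3, a4, a5⟩ := res_contr h R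
    obtain ⟨ι', H', b1, b2, b3, b4, b5⟩ := res_contr h' R'
    let I : (tens K A A').B →ₗ[K] (Fr (boxT R.q R'.q)).H := tlift ((boxL _ _).compl₁₂ ι ι')
    have hI : ∀ a a', I (tm K A A' a a') = box (ι a) (ι' a') := fun _ _ => rfl
  · refine ⟨I w, ?_, ?_, ?_⟩
    · by_cases e : n = 0
      · subst e
        exact tens_gr_le I.toAddMonoidHom _ (fun _ _ a a' _ _ _ => box_mem (a1 a) (b1 a') rfl) hw
      · rw [hT.zero hw e, map_zero]; exact zero_mem _
    · refine tens_ext (f := (Fr _).d.comp I.toAddMonoidHom) (g := 0) (fun a a' => ?_) w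
      change (Fr _).d (box (ι a) (ι' a')) = 0
      rw [d_box, a2, b2, zero_box, box_zero, add_zero]
    · have : lift (boxT R.q R'.q) (tens K A A').self (boxA R.a R'.a) (I w) = w := by
        refine tens_ext (f := (lift _ (tens K A A').self (boxA R.a R'.a)).comp I.toAddMonoidHom)
          (g := AddMonoidHom.id _) (fun a a' => ?_) w
        change lift _ (tens K A A').self (boxA R.a R'.a) (box (ι a) (ι' a')) = tm K A A' a a'
        rw [lift_boxA]
        exact congrArg₂ _ (a3 a) (b3 a')
      rw [this, (tens K A A').two]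
      exact Cx.Bd.zero n
  · let P : (Fr R.q).H →ₗ[K] (Fr R.q).H := ι ∘ₗ R.aug_isHom.isLin.lin K
    let S := blift ((boxL R.q R'.q).compl₁₂ H LinearMap.id + (boxL R.q R'.q).compl₁₂ P H')
    have hS : ∀ u v, S (box u v) = box (H u) v + box (ι (R.aug u)) (H' v) :=
      fun u v => blift_box _ u v
    have hz0 : lift (boxT R.q R'.q) (tens K A A').self (boxA R.a R'.a) z = 0 := by
      obtain ⟨w, -, e⟩ := hb
      exact e.symm.trans (hT.d w)
    refine ⟨S z, box_gr_le S.toAddMonoidHom _ (fun i j u v hu hv e => ?_) hz, ?_⟩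
    · change S (box u v) ∈ _
      rw [hS]
      refine add_mem (box_mem (a4 i u hu) hv (by omega)) ?_
      by_cases e' : i = 0
      · exact box_mem (a1 _) (b4 j v hv) (by omega)
      · rw [show R.aug u = 0 from h.zero (R.aug_isHom.mem hu) e', map_zero, zero_box]
        exact zero_mem _
    · have key := box_gr_le ((Fr _).d.comp S.toAddMonoidHom + S.toAddMonoidHom.comp (Fr _).d +
        (AddMonoidHom.id _ + I.toAddMonoidHom.comp
          (lift (boxT R.q R'.q) (tens K A A').self (boxA R.a R'.a)))) ⊥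
        (fun i j u v _ _ _ => by
          change (Fr _).d (S (box u v)) + S ((Fr _).d (box u v)) + (box u v +
            I (lift (boxT R.q R'.q) (tens K A A').self (boxA R.a R'.a) (box u v))) = 0
          have e0 : R.aug ((Fr R.q).d u) = 0 := (R.aug_isHom.comm u).symm.trans (h.d _)
          have e1 := congrArg (box · v) (a5 u)
          have e2 := congrArg (box (ι (R.aug u))) (b5 v)
          simp only [add_box, box_add] at e1 e2
          have t1 := (Fr (boxT R.q R'.q)).two (box (H u) ((Fr R'.q).d v))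
          have t2 := (Fr (boxT R.q R'.q)).two (box (ι (R.aug u)) v)
          have t3 := (Fr (boxT R.q R'.q)).two (box u v)
          have t4 := (Fr (boxT R.q R'.q)).two (box (ι (R.aug u)) (ι' (R'.aug v)))
          rw [lift_boxA, hI, d_box, map_add, hS, hS, hS, map_add, d_box, d_box, a2, e0, map_zero,
            zero_box]
          linear_combination (norm := abel) e1 + e2 + t1 + t2 + t3 + t4) hz
      change (Fr _).d (S z) + S ((Fr _).d z) + (z +
        I (lift (boxT R.q R'.q) (tens K A A').self (boxA R.a R'.a) z)) = 0 at key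
      rw [show (Fr _).d z = 0 from h0, hz0, map_zero, map_zero, add_zero, add_zero] at key
      exact (Fr _).cx.eq_of_add key

end FMD
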